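import Mathlib

/-!
Infinite locally finite-soluble groups: the case where all centralizers of non-trivial elements are
finite is impossible (elementary). Part of the theorem of Hall, Kulatilaka, Kargapolov.
-/

namespace Pool.Agent.CIP.H59

/-! ### Fixed-point-free abelian groups are cyclic -/

/-- the annihilator of `w` -/
def annI {R V : Type*} [CommRing R] [AddCommGroup V] (ψ : R →+* AddMonoid.End V) (w : V) :
    Ideal R where
  carrier := {r | ψ r w = 0}
  add_mem' := by
    intro a b ha hb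
    change ψ a w = 0 at ha
    change ψ b w = 0 at hb
    change ψ (a + b) w = 0
    rw [map_add]
    change ψ a w + ψ b w = 0
    rw [ha, hb, add_zero]
  zero_mem' := by simp
  smul_mem' := by
    intro c x hx
    change ψ x w = 0 at hx
    change ψ (c * x) w = 0
    rw [map_mul]
    change ψ c (ψ x w) = 0
    rw [hx, map_zero]

theorem mem_annI {R V : Type*} [CommRing R] [AddCommGroup V] (ψ : R →+* AddMonoid.End V) (w : V)
    (r : R) : r ∈ annI ψ w ↔ ψ r w = 0 := Iff.rfl

theorem exists_domain {R V : Type*} [CommRing R] [AddCommGroup V] [Finite V] [Nontrivial V]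
    (ψ : R →+* AddMonoid.End V) : ∃ w : V, w ≠ 0 ∧ (annI ψ w).IsPrime := by
  classical
  obtain ⟨w0, hw0⟩ := exists_ne (0 : V)
  obtain ⟨w, hw, hmin⟩ := Set.exists_min_image {w : V | w ≠ 0}
    (fun w => Nat.card (Set.range fun r : R => ψ r w)) (Set.toFinite _) ⟨w0, hw0⟩
  refine ⟨w, hw, ?_, ?_⟩
  · intro h
    have h1 : (1 : R) ∈ annI ψ w := by rw [h]; trivial
    rw [mem_annI, map_one] at h1
    exact hw h1
  · intro r s hrs
    by_cases hs : ψ s w = 0
    · exact Or.inr hs
    left
    have hsub : (Set.range fun r : R => ψ r (ψ s w)) ⊆ Set.range fun r : R => ψ r w := by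
      rintro _ ⟨t, rfl⟩
      refine ⟨t * s, ?_⟩
      simp only [map_mul]
      rfl
    have hle := hmin (ψ s w) hs
    have heq : (Set.range fun r : R => ψ r (ψ s w)) = Set.range fun r : R => ψ r w := by
      refine Set.eq_of_subset_of_ncard_le hsub ?_ (Set.toFinite _)
      simpa only [Nat.card_coe_set_eq] using hle
    have hmem : w ∈ Set.range fun r : R => ψ r (ψ s w) := by
      rw [heq]
      exact ⟨1, by simp only [map_one]; rfl⟩
    obtain ⟨t, ht⟩ := hmem
    simp only at ht
    rw [mem_annI] at hrs ⊢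
    have e : ψ (t * (r * s)) w = ψ r (ψ t (ψ s w)) := by
      rw [show t * (r * s) = r * (t * s) by ring, map_mul, map_mul]
      rfl
    rw [ht] at e
    rw [← e, map_mul]
    change ψ t (ψ (r * s) w) = 0
    rw [hrs, map_zero]

theorem cyclic_of_fpf {M V : Type*} [CommGroup M] [Finite M] [AddCommGroup V] [Finite V]
    [Nontrivial V] (φ : M →* AddMonoid.End V)
    (hf : ∀ (x : M) (v : V), v ≠ 0 → φ x v = v → x = 1) : IsCyclic M := by
  obtain ⟨ψ, hψ⟩ : ∃ ψ : MonoidAlgebra ℤ M →+* AddMonoid.End V,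
      ∀ x : M, ψ (MonoidAlgebra.of ℤ M x) = φ x := by
    refine ⟨(MonoidAlgebra.lift ℤ (AddMonoid.End V) M φ).toRingHom, fun x => ?_⟩
    simp
  obtain ⟨w, hw, hp⟩ := exists_domain ψ
  have hd : IsDomain (MonoidAlgebra ℤ M ⧸ annI ψ w) := (Ideal.Quotient.isDomain_iff_prime _).2 hp
  refine isCyclic_of_subgroup_isDomain
    ((Ideal.Quotient.mk (annI ψ w)).toMonoidHom.comp (MonoidAlgebra.of ℤ M)) ?_
  rw [injective_iff_map_eq_one]
  intro x hx
  refine hf x w hw ?_
  have h1 : Ideal.Quotient.mk (annI ψ w) (MonoidAlgebra.of ℤ M x - 1) = 0 := by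
    rw [map_sub, map_one, sub_eq_zero]
    exact hx
  rw [Ideal.Quotient.eq_zero_iff_mem, mem_annI, map_sub, hψ, map_one] at h1
  change φ x w - w = 0 at h1
  exact sub_eq_zero.1 h1

end Pool.Agent.CIP.H59
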