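import Pool.Agent.Helper59_CIP.Core

namespace Pool.Agent.CIP.H59

open scoped commutatorElement

variable {G : Type*} [Group G]

/-- A nontrivial soluble subgroup has a nontrivial commutative normal subgroup. -/
theorem exists_abelian_normal (P : Subgroup G) [hs : Group.IsSolvable P] (hP : P ≠ ⊥) :
    ∃ M : Subgroup G, M ≤ P ∧ M ≠ ⊥ ∧ (∀ a ∈ M, ∀ b ∈ M, a * b = b * a) ∧
      ∀ g ∈ P, ∀ m ∈ M, g * m * g⁻¹ ∈ M := by
  classical
  have hex : ∃ n, derivedSeries P n = ⊥ := hs.solvable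
  obtain ⟨k, hk⟩ : ∃ k, k = Nat.find hex := ⟨_, rfl⟩
  have hk1 : derivedSeries P k = ⊥ := by rw [hk]; exact Nat.find_spec hex
  have hk0 : k ≠ 0 := by
    rintro rfl
    rw [derivedSeries_zero] at hk1
    apply hP
    rw [eq_bot_iff]
    intro x hx
    have : (⟨x, hx⟩ : P) ∈ (⊤ : Subgroup P) := trivial
    rw [hk1, Subgroup.mem_bot] at this
    rw [Subgroup.mem_bot]
    exact congrArg Subtype.val this
  obtain ⟨j, rfl⟩ : ∃ j, k = j + 1 := ⟨k - 1, by omega⟩
  have hj : derivedSeries P j ≠ ⊥ := by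
    intro h
    have := Nat.find_min' hex h
    omega
  have hn : (derivedSeries P j).Normal := derivedSeries_normal P j
  refine ⟨(derivedSeries P j).map P.subtype, ?_, ?_, ?_, ?_⟩
  · rintro _ ⟨x, _, rfl⟩
    exact x.2
  · intro h
    apply hj
    rw [eq_bot_iff]
    intro x hx
    have h1 : (x : G) ∈ (derivedSeries P j).map P.subtype := ⟨x, hx, rfl⟩
    rw [h, Subgroup.mem_bot] at h1
    rw [Subgroup.mem_bot]
    exact Subtype.ext h1
  · rintro _ ⟨x, hx, rfl⟩ _ ⟨y, hy, rfl⟩
    have h1 : ⁅x, y⁆ ∈ derivedSeries P (j + 1) := by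
      rw [derivedSeries_succ]
      exact Subgroup.commutator_mem_commutator hx hy
    rw [hk1, Subgroup.mem_bot, commutatorElement_eq_one_iff_mul_comm] at h1
    exact congrArg Subtype.val h1
  · rintro g hg _ ⟨x, hx, rfl⟩
    exact ⟨⟨g, hg⟩ * x * ⟨g, hg⟩⁻¹, hn.conj_mem x hx _, rfl⟩

/-- The centralizer of an element is finite. -/
def CF (x : G) : Prop := {y : G | y * x = x * y}.Finite

/-- `P` normalizes a cyclic `M` and acts fixed-point-freely on it: `P` is commutative. -/
theorem comm_of_cyclic {P M : Subgroup G} (hM : M ≠ ⊥) (hn : ∀ g ∈ P, ∀ m ∈ M, g * m * g⁻¹ ∈ M)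
    (hc : ∃ c ∈ M, ∀ m ∈ M, ∃ a : ℤ, c ^ a = m)
    (hf : ∀ x ∈ P, x ≠ 1 → ∀ m ∈ M, m * x = x * m → m = 1) :
    ∀ g ∈ P, ∀ h ∈ P, g * h = h * g := by
  intro g hg h hh
  obtain ⟨c, hcM, hgen⟩ := hc
  have hc1 : c ≠ 1 := by
    rintro rfl
    apply hM
    rw [eq_bot_iff]
    intro m hm
    obtain ⟨a, ha⟩ := hgen m hm
    rw [one_zpow] at ha
    rw [Subgroup.mem_bot, ha]
  obtain ⟨a, ha⟩ := hgen _ (hn g hg c hcM)
  obtain ⟨b, hb⟩ := hgen _ (hn h hh c hcM)
  have e1 : (g * h) * c * (g * h)⁻¹ = c ^ (a * b) := by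
    have : (g * h) * c * (g * h)⁻¹ = g * (h * c * h⁻¹) * g⁻¹ := by group
    rw [this, ← hb, ← conj_zpow, ← ha, zpow_mul]
  have e2 : (h * g) * c * (h * g)⁻¹ = c ^ (a * b) := by
    have : (h * g) * c * (h * g)⁻¹ = h * (g * c * g⁻¹) * h⁻¹ := by group
    rw [this, ← ha, ← conj_zpow, ← hb, ← zpow_mul, mul_comm]
  by_contra hne
  have hu : (h * g)⁻¹ * (g * h) ≠ 1 := by
    intro h1
    apply hne
    have := inv_mul_eq_one.1 h1
    exact this.symm
  have huP : (h * g)⁻¹ * (g * h) ∈ P := P.mul_mem (P.inv_mem (P.mul_mem hh hg)) (P.mul_mem hg hh)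
  refine hc1 (hf _ huP hu c hcM ?_)
  have e3 : (g * h) * c * (g * h)⁻¹ = (h * g) * c * (h * g)⁻¹ := e1.trans e2.symm
  have e4 : (g * h) * c = (h * g) * c * (h * g)⁻¹ * (g * h) := by rw [← e3]; group
  calc c * ((h * g)⁻¹ * (g * h)) = (h * g)⁻¹ * ((h * g) * c * (h * g)⁻¹ * (g * h)) := by group
    _ = (h * g)⁻¹ * ((g * h) * c) := by rw [e4]
    _ = (h * g)⁻¹ * (g * h) * c := by group

/-- A commutative `N` acting fixed-point-freely on a commutative finite `M` is cyclic. -/
theorem cyclic_sub {N M : Subgroup G} [Finite N] [Finite M] (hM : M ≠ ⊥)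
    (hNc : ∀ a ∈ N, ∀ b ∈ N, a * b = b * a) (hMc : ∀ a ∈ M, ∀ b ∈ M, a * b = b * a)
    (hn : ∀ g ∈ N, ∀ m ∈ M, g * m * g⁻¹ ∈ M)
    (hf : ∀ x ∈ N, x ≠ 1 → ∀ m ∈ M, m * x = x * m → m = 1) :
    ∃ c ∈ N, ∀ m ∈ N, ∃ a : ℤ, c ^ a = m := by
  let _ : CommGroup N := { (inferInstance : Group N) with
    mul_comm := fun a b => Subtype.ext (hNc a a.2 b b.2) }
  let _ : CommGroup M := { (inferInstance : Group M) with
    mul_comm := fun a b => Subtype.ext (hMc a a.2 b b.2) }
  have _ : Nontrivial (Additive M) := by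
    rw [← Subgroup.nontrivial_iff_ne_bot] at hM
    exact hM
  let φ : N →* AddMonoid.End (Additive M) :=
    { toFun := fun g =>
        { toFun := fun m => Additive.ofMul (⟨g * (Additive.toMul m : M) * (g : G)⁻¹,
            hn g g.2 _ (Additive.toMul m : M).2⟩ : M)
          map_zero' := by
            apply Additive.toMul.injective
            apply Subtype.ext
            change (g : G) * ((1 : M) : G) * (g : G)⁻¹ = ((1 : M) : G)
            simp
          map_add' := fun x y => by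
            apply Additive.toMul.injective
            apply Subtype.ext
            change (g : G) * ((Additive.toMul x : M) * (Additive.toMul y : M) : G) * (g : G)⁻¹ =
              ((g : G) * (Additive.toMul x : M) * (g : G)⁻¹) *
                ((g : G) * (Additive.toMul y : M) * (g : G)⁻¹)
            group }
      map_one' := by
        ext m
        change ((1 : N) : G) * (Additive.toMul m : M) * ((1 : N) : G)⁻¹ = (Additive.toMul m : M)
        simp
      map_mul' := fun g h => by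
        ext m
        change ((g * h : N) : G) * (Additive.toMul m : M) * ((g * h : N) : G)⁻¹ =
          (g : G) * ((h : G) * (Additive.toMul m : M) * (h : G)⁻¹) * (g : G)⁻¹
        push_cast
        group }
  have hcyc : IsCyclic N := by
    refine cyclic_of_fpf φ ?_
    intro x v hv hxv
    by_contra hx
    apply hv
    have h1 : (x : G) * (Additive.toMul v : M) * (x : G)⁻¹ = (Additive.toMul v : M) :=
      congrArg (fun z : Additive M => ((Additive.toMul z : M) : G)) hxv
    have h2 : ((Additive.toMul v : M) : G) = 1 := by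
      refine hf x x.2 (fun h => hx (Subtype.ext h)) _ (Additive.toMul v : M).2 ?_
      rw [mul_inv_eq_iff_eq_mul] at h1
      exact h1.symm
    apply Additive.toMul.injective
    exact Subtype.ext h2
  obtain ⟨c, hc⟩ := hcyc.exists_generator
  refine ⟨c, c.2, fun m hm => ?_⟩
  obtain ⟨a, ha⟩ := Subgroup.mem_zpowers_iff.1 (hc ⟨m, hm⟩)
  exact ⟨a, by have := congrArg Subtype.val ha; simpa using this⟩

end Pool.Agent.CIP.H59
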