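import Pool.Agent.Helper59_CIP.Core2

namespace Pool.Agent.CIP.H59

variable {G : Type*} [Group G]

/-- The centralizer of `x` as a subgroup. -/
theorem cf_centralizer {x : G} (h : CF x) : Finite (Subgroup.centralizer {x}) := by
  refine Set.Finite.subset h ?_
  intro y hy
  exact (Subgroup.mem_centralizer_singleton_iff.1 hy)

theorem cf_iff {x : G} : CF x ↔ Finite (Subgroup.centralizer {x}) := by
  refine ⟨cf_centralizer, fun h => ?_⟩
  have h' : ((Subgroup.centralizer {x} : Subgroup G) : Set G).Finite := h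
  refine Set.Finite.subset h' ?_
  intro y hy
  exact Subgroup.mem_centralizer_singleton_iff.2 hy

/-- An element of order `r` that normalizes a subgroup with an element of order `r` of exponent `r`
fixes a non-trivial element of it. -/
theorem exists_fixed {r : ℕ} (hr : r.Prime) {e : G} (he : orderOf e = r) (V : Subgroup G) [Finite V]
    (hV : r ∣ Nat.card V)
    (hn : ∀ v ∈ V, e * v * e⁻¹ ∈ V) :
    ∃ z ∈ V, z ≠ 1 ∧ z * e = e * z := by
  classical
  haveI : Fact r.Prime := ⟨hr⟩
  have hfe : Finite (Subgroup.zpowers e) := by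
    have : 0 < orderOf e := by rw [he]; exact hr.pos
    exact Nat.finite_of_card_ne_zero (by rw [Nat.card_zpowers]; omega)
  -- the normalizer
  have hle : Subgroup.zpowers e ≤ Subgroup.normalizer (V : Set G) := by
    rw [Subgroup.zpowers_le]
    have h1 : ∀ v, v ∈ V → e * v * e⁻¹ ∈ V := hn
    rw [Subgroup.mem_normalizer_iff]
    intro v
    refine ⟨h1 v, fun h => ?_⟩
    have hk : ∀ k : ℕ, e ^ k * (e * v * e⁻¹) * (e ^ k)⁻¹ ∈ V := by
      intro k
      induction k with
      | zero => simpa using h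
      | succ k ih =>
        have := h1 _ ih
        have e1 : e ^ (k + 1) * (e * v * e⁻¹) * (e ^ (k + 1))⁻¹ =
            e * (e ^ k * (e * v * e⁻¹) * (e ^ k)⁻¹) * e⁻¹ := by
          rw [pow_succ']; group
        rw [e1]
        exact this
    have h2 := hk (r - 1)
    have h3 : e ^ (r - 1) * e = 1 := by
      rw [← pow_succ, Nat.sub_add_cancel hr.one_le, ← he, pow_orderOf_eq_one]
    have h4 : e ^ (r - 1) * (e * v * e⁻¹) * (e ^ (r - 1))⁻¹ =
        (e ^ (r - 1) * e) * v * (e ^ (r - 1) * e)⁻¹ := by group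
    rw [h4, h3] at h2
    simpa using h2
  let act : Subgroup.zpowers e →* MulAut V :=
    V.normalizerMonoidHom.comp (Subgroup.inclusion hle)
  let _ : MulAction (Subgroup.zpowers e) V := MulAction.compHom V act
  have hp : IsPGroup r (Subgroup.zpowers e) := by
    refine IsPGroup.of_card (n := 1) ?_
    rw [Nat.card_zpowers, he, pow_one]
  have h1 : (1 : V) ∈ MulAction.fixedPoints (Subgroup.zpowers e) V := by
    intro g
    change act g 1 = 1
    exact map_one _
  obtain ⟨b, hb, hb1⟩ := hp.exists_fixed_point_of_prime_dvd_card_of_fixed_point V hV h1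
  refine ⟨b, b.2, fun h => hb1 (Subtype.ext h.symm), ?_⟩
  have h2 := hb ⟨e, Subgroup.mem_zpowers e⟩
  have h3 : e * (b : G) * e⁻¹ = b := congrArg Subtype.val h2
  rw [mul_inv_eq_iff_eq_mul] at h3
  exact h3.symm

/-- If `i ↦ g i` is injective and all `g i * k * (g i)⁻¹` lie in a finite set, then the centralizer of
`k` is infinite. -/
theorem not_cf_of_conj {k : G} (g : ℕ → G) (hg : Function.Injective g) (K : Set G) (hK : K.Finite)
    (h : ∀ i, g i * k * (g i)⁻¹ ∈ K) : ¬ CF k := by
  intro hc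
  haveI : Finite K := hK
  obtain ⟨c, hinf⟩ := Finite.exists_infinite_fiber (fun i : ℕ => (⟨_, h i⟩ : K))
  rw [Set.infinite_coe_iff] at hinf
  obtain ⟨i0, hi0⟩ := hinf.nonempty
  have himg : ((fun i => (g i0)⁻¹ * g i) '' ((fun i : ℕ => (⟨_, h i⟩ : K)) ⁻¹' {c})).Infinite := by
    refine hinf.image ?_
    intro a _ b _ hab
    exact hg (mul_left_cancel hab)
  refine himg (Set.Finite.subset hc ?_)
  rintro _ ⟨i, hi, rfl⟩
  have e1 : g i0 * k * (g i0)⁻¹ = c := congrArg Subtype.val hi0
  have e2 : g i * k * (g i)⁻¹ = c := congrArg Subtype.val hi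
  change (g i0)⁻¹ * g i * k = k * ((g i0)⁻¹ * g i)
  have e3 : g i * k = c * g i := by rw [← e2]; group
  have e4 : k * (g i0)⁻¹ = (g i0)⁻¹ * c := by rw [← e1]; group
  calc (g i0)⁻¹ * g i * k = (g i0)⁻¹ * (g i * k) := by group
    _ = (g i0)⁻¹ * (c * g i) := by rw [e3]
    _ = ((g i0)⁻¹ * c) * g i := by group
    _ = k * (g i0)⁻¹ * g i := by rw [← e4]
    _ = k * ((g i0)⁻¹ * g i) := by group

/-- THE CORE. -/
theorem core [Infinite G] (hfin : ∀ H : Subgroup G, H.FG → Finite H ∧ Group.IsSolvable H)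
    (hcent : ∀ x : G, x ≠ 1 → CF x) : False := by
  classical
  obtain ⟨f⟩ : Nonempty (ℕ ↪ G) := ⟨Infinite.natEmbedding G⟩
  obtain ⟨P, hP⟩ : ∃ P : ℕ → Subgroup G, P = fun n => Subgroup.closure (f '' Set.Iic (n + 1)) :=
    ⟨_, rfl⟩
  have hfP : ∀ i n, i ≤ n + 1 → f i ∈ P n := by
    intro i n h
    rw [hP]
    exact Subgroup.subset_closure ⟨i, h, rfl⟩
  have hmono : ∀ {i n : ℕ}, i ≤ n → P i ≤ P n := by
    intro i n h
    rw [hP]
    refine Subgroup.closure_mono (Set.image_mono ?_)
    intro x hx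
    simp only [Set.mem_Iic] at hx ⊢
    omega
  have hfg : ∀ n, (P n).FG := by
    intro n
    rw [hP]
    refine Subgroup.fg_iff _ |>.2 ⟨_, rfl, (Set.finite_Iic _).image _⟩
  have hPfin : ∀ n, Finite (P n) := fun n => (hfin _ (hfg n)).1
  have hPsol : ∀ n, Group.IsSolvable (P n) := fun n => (hfin _ (hfg n)).2
  have hPne : ∀ n, P n ≠ ⊥ := by
    intro n h
    have h0 := hfP 0 n (by omega)
    have h1 := hfP 1 n (by omega)
    rw [h, Subgroup.mem_bot] at h0 h1
    have := f.injective (h0.trans h1.symm)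
    omega
  have hex : ∀ n, ∃ M : Subgroup G, M ≤ P n ∧ M ≠ ⊥ ∧ (∀ a ∈ M, ∀ b ∈ M, a * b = b * a) ∧
      ∀ g ∈ P n, ∀ m ∈ M, g * m * g⁻¹ ∈ M := fun n => exists_abelian_normal (P n) (hPne n)
  choose M hMP hMne hMc hMn using hex
  have hMfin : ∀ n, Finite (M n) := fun n => by
    haveI := hPfin n
    exact Finite.of_injective _ (Subgroup.inclusion_injective (hMP n))
  -- case a
  by_cases hA : ∃ r : ℕ, r.Prime ∧ ∀ N, ∃ n, N ≤ n ∧ r ∣ Nat.card (M n)
  · obtain ⟨r, hr, hrn⟩ := hA
    haveI : Fact r.Prime := ⟨hr⟩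
    obtain ⟨n0, _, hn0⟩ := hrn 0
    haveI := hMfin n0
    obtain ⟨e', he'⟩ := exists_prime_orderOf_dvd_card' r hn0
    obtain ⟨e, he⟩ : ∃ e : G, e = e' := ⟨_, rfl⟩
    have heo : orderOf e = r := by rw [he, Subgroup.orderOf_coe, he']
    have heP : e ∈ P n0 := by rw [he]; exact hMP n0 e'.2
    have he1 : e ≠ 1 := by
      rintro rfl
      rw [orderOf_one] at heo
      exact hr.one_lt.ne heo
    obtain ⟨S, hS⟩ : ∃ S : Set ℕ, S = {n | n0 ≤ n ∧ r ∣ Nat.card (M n)} := ⟨_, rfl⟩
    have hSinf : S.Infinite := by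
      rw [Set.infinite_iff_exists_gt]
      intro N
      obtain ⟨n, h1, h2⟩ := hrn (max n0 (N + 1))
      refine ⟨n, ?_, by omega⟩
      rw [hS]
      exact ⟨by omega, h2⟩
    have hz : ∀ n : S, ∃ z ∈ M n, z ≠ 1 ∧ z * e = e * z := by
      rintro ⟨n, hn⟩
      rw [hS] at hn
      haveI := hMfin n
      exact exists_fixed hr heo (M n) hn.2 (fun v hv => hMn n e (hmono hn.1 heP) v hv)
    choose z hzM hz1 hze using hz
    -- first pigeonhole
    haveI : Infinite S := hSinf.to_subtype
    haveI : Finite {y : G | y * e = e * y} := hcent e he1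
    obtain ⟨z0, hz0⟩ := Finite.exists_infinite_fiber
      (fun n : S => (⟨z n, hze n⟩ : {y : G | y * e = e * y}))
    obtain ⟨w, hw⟩ : ∃ w : G, w = z0 := ⟨_, rfl⟩
    obtain ⟨S1, hS1⟩ : ∃ S1 : Set ℕ, S1 = Subtype.val '' ((fun n : S =>
      (⟨z n, hze n⟩ : {y : G | y * e = e * y})) ⁻¹' {z0}) := ⟨_, rfl⟩
    have hS1inf : S1.Infinite := by
      rw [hS1]
      refine Set.Infinite.image Subtype.val_injective.injOn ?_
      rwa [Set.infinite_coe_iff] at hz0
    have hS1m : ∀ n ∈ S1, w ∈ M n ∧ w ≠ 1 := by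
      rintro n hn
      rw [hS1] at hn
      obtain ⟨n', hn', rfl⟩ := hn
      have e1 : z n' = w := by rw [hw]; exact congrArg Subtype.val hn'
      rw [← e1]
      exact ⟨hzM n', hz1 n'⟩
    have hw1 : w ≠ 1 := by
      obtain ⟨n, hn⟩ := hS1inf.nonempty
      exact (hS1m n hn).2
    -- second pigeonhole
    have hcw : Finite (Subgroup.centralizer {w} : Subgroup G) := cf_centralizer (hcent w hw1)
    have hle : ∀ n ∈ S1, M n ≤ Subgroup.centralizer {w} := by
      intro n hn m hm
      rw [Subgroup.mem_centralizer_singleton_iff]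
      exact hMc n m hm w (hS1m n hn).1
    have hfs : {K : Set G | K ⊆ (Subgroup.centralizer {w} : Subgroup G)}.Finite :=
      Set.Finite.finite_subsets hcw
    haveI : Finite {K : Set G | K ⊆ (Subgroup.centralizer {w} : Subgroup G)} := hfs
    haveI : Infinite S1 := hS1inf.to_subtype
    obtain ⟨K0, hK0⟩ := Finite.exists_infinite_fiber
      (fun n : S1 => (⟨(M n : Set G), hle n n.2⟩ :
        {K : Set G | K ⊆ (Subgroup.centralizer {w} : Subgroup G)}))
    obtain ⟨S2, hS2⟩ : ∃ S2 : Set ℕ, S2 = Subtype.val '' ((fun n : S1 =>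
      (⟨(M n : Set G), hle n n.2⟩ :
        {K : Set G | K ⊆ (Subgroup.centralizer {w} : Subgroup G)})) ⁻¹' {K0}) := ⟨_, rfl⟩
    have hS2inf : S2.Infinite := by
      rw [hS2]
      refine Set.Infinite.image Subtype.val_injective.injOn ?_
      rwa [Set.infinite_coe_iff] at hK0
    have hS2m : ∀ n ∈ S2, (M n : Set G) = K0 ∧ w ∈ M n := by
      rintro n hn
      rw [hS2] at hn
      obtain ⟨n', hn', rfl⟩ := hn
      exact ⟨congrArg Subtype.val hn', (hS1m n' n'.2).1⟩
    refine not_cf_of_conj (k := w) f f.injective (K0 : Set G) (Set.Finite.subset hcw K0.2) ?_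
      (hcent w hw1)
    intro i
    obtain ⟨n, hn, hin⟩ := hS2inf.exists_gt i
    obtain ⟨h1, h2⟩ := hS2m n hn
    rw [← h1]
    exact hMn n (f i) (hfP i n (by omega)) w h2
  -- case b
  · push_neg at hA
    have key : ∀ x : G, x ≠ 1 → ∃ N, ∀ n, N ≤ n → ∀ m ∈ M n, m * x = x * m → m = 1 := by
      intro x hx
      haveI hC : Finite (Subgroup.centralizer {x} : Subgroup G) := cf_centralizer (hcent x hx)
      have hch : ∀ r : ℕ, ∃ N, r.Prime → ∀ n, N ≤ n → ¬ r ∣ Nat.card (M n) := by
        intro r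
        by_cases hr : r.Prime
        · obtain ⟨N, hN⟩ := hA r hr
          exact ⟨N, fun _ => hN⟩
        · exact ⟨0, fun h => absurd h hr⟩
      choose N hN using hch
      refine ⟨(Nat.card (Subgroup.centralizer {x} : Subgroup G)).primeFactors.sup N, ?_⟩
      intro n hn m hm hmx
      by_contra hm1
      haveI := hMfin n
      have ho : orderOf m ≠ 1 := by rwa [Ne, orderOf_eq_one_iff]
      obtain ⟨r, hr, hrd⟩ := Nat.exists_prime_and_dvd ho
      have d1 : orderOf m ∣ Nat.card (M n) := by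
        have := orderOf_dvd_natCard (⟨m, hm⟩ : M n)
        rwa [Subgroup.orderOf_mk] at this
      have d2 : orderOf m ∣ Nat.card (Subgroup.centralizer {x} : Subgroup G) := by
        have := orderOf_dvd_natCard (⟨m, Subgroup.mem_centralizer_singleton_iff.2 hmx⟩ :
          (Subgroup.centralizer {x} : Subgroup G))
        rwa [Subgroup.orderOf_mk] at this
      have hmem : r ∈ (Nat.card (Subgroup.centralizer {x} : Subgroup G)).primeFactors :=
        Nat.mem_primeFactors.2 ⟨hr, hrd.trans d2, Nat.card_pos.ne'⟩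
      exact hN r hr n ((Finset.le_sup hmem).trans hn) (hrd.trans d1)
    have key2 : ∀ j, ∃ n, j ≤ n ∧ ∀ x ∈ P j, x ≠ 1 → ∀ m ∈ M n, m * x = x * m → m = 1 := by
      intro j
      have hch : ∀ x : G, ∃ N, x ≠ 1 → ∀ n, N ≤ n → ∀ m ∈ M n, m * x = x * m → m = 1 := by
        intro x
        by_cases hx : x ≠ 1
        · obtain ⟨N, hN⟩ := key x hx
          exact ⟨N, fun _ => hN⟩
        · exact ⟨0, fun h => absurd h hx⟩
      choose N hN using hch
      have hPj : ((P j : Subgroup G) : Set G).Finite := hPfin j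
      refine ⟨max j (hPj.toFinset.sup N), le_max_left _ _, ?_⟩
      intro x hx hx1 m hm hmx
      refine hN x hx1 _ ?_ m hm hmx
      exact (Finset.le_sup (hPj.mem_toFinset.2 hx)).trans (le_max_right _ _)
    have hcomm : ∀ j, ∀ g ∈ P j, ∀ h ∈ P j, g * h = h * g := by
      intro j
      obtain ⟨n, hjn, hn⟩ := key2 j
      obtain ⟨n', hnn, hn'⟩ := key2 n
      haveI := hMfin n
      haveI := hMfin n'
      have hc := cyclic_sub (N := M n) (M := M n') (hMne n') (hMc n) (hMc n')
        (fun g hg m hm => hMn n' g (hmono hnn (hMP n hg)) m hm)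
        (fun x hx hx1 m hm hmx => hn' x (hMP n hx) hx1 m hm hmx)
      exact comm_of_cyclic (P := P j) (M := M n) (hMne n)
        (fun g hg m hm => hMn n g (hmono hjn hg) m hm) hc hn
    obtain ⟨i, hi⟩ : ∃ i, f i ≠ 1 := by
      by_contra h
      push_neg at h
      have := f.injective ((h 0).trans (h 1).symm)
      omega
    refine not_cf_of_conj (k := f i) f f.injective {f i} (Set.finite_singleton _) ?_ (hcent _ hi)
    intro j
    have h1 := hcomm (max i j) (f j) (hfP j _ (by omega)) (f i) (hfP i _ (by omega))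
    rw [Set.mem_singleton_iff, h1]
    group

end Pool.Agent.CIP.H59
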