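import Pool.Agent.Helper59_CIP.Core3

/-!
The theorem of Hall, Kulatilaka and Kargapolov for locally finite-soluble groups: an infinite group
in which every finitely generated subgroup is finite and soluble has an infinite commutative
subgroup.
-/

namespace Pool.Agent.CIP.H59

variable {L : Type*} [Group L]

/-- Finite, commutative, infinite centralizer. -/
def GoodA (A : Subgroup L) : Prop :=
  Finite A ∧ (∀ a ∈ A, ∀ b ∈ A, a * b = b * a) ∧ (Subgroup.centralizer (A : Set L) : Set L).Infinite

/-- A maximal good subgroup exists if there is no infinite commutative subgroup. -/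
theorem exists_max_good [Infinite L] (h : ∀ H : Subgroup L, H.FG → Finite H)
    (hno : ¬ ∃ A : Subgroup L, Infinite A ∧ ∀ a ∈ A, ∀ b ∈ A, a * b = b * a) :
    ∃ A : Subgroup L, GoodA A ∧ ∀ x ∈ Subgroup.centralizer (A : Set L), x ∉ A →
      {y | y ∈ Subgroup.centralizer (A : Set L) ∧ y * x = x * y}.Finite := by
  classical
  by_contra hcon
  push Not at hcon
  have step : ∀ A : {A : Subgroup L // GoodA A}, ∃ B : {A : Subgroup L // GoodA A}, A.1 < B.1 := by
    rintro ⟨A, hA⟩
    obtain ⟨x, hxC, hxA, hinf⟩ := hcon A hA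
    obtain ⟨hAf, hAc, -⟩ := hA
    have hxa : ∀ a ∈ A, x * a = a * x := by
      intro a ha
      exact ((Subgroup.mem_centralizer_iff.1 hxC) a ha).symm
    obtain ⟨B, hB⟩ : ∃ B : Subgroup L, B = Subgroup.closure ((A : Set L) ∪ {x}) := ⟨_, rfl⟩
    have hAB : A ≤ B := by
      rw [hB]
      exact fun a ha => Subgroup.subset_closure (Or.inl ha)
    have hxB : x ∈ B := by
      rw [hB]
      exact Subgroup.subset_closure (Or.inr rfl)
    have hBfg : B.FG := by
      rw [Subgroup.fg_iff]
      refine ⟨(A : Set L) ∪ {x}, hB.symm, ?_⟩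
      exact Set.Finite.union hAf (Set.finite_singleton x)
    have hcomm : ∀ a ∈ (A : Set L) ∪ {x}, ∀ b ∈ (A : Set L) ∪ {x}, a * b = b * a := by
      rintro a (ha | ha) b (hb | hb)
      · exact hAc a ha b hb
      · rw [Set.mem_singleton_iff] at hb
        rw [hb]
        exact (hxa a ha).symm
      · rw [Set.mem_singleton_iff] at ha
        rw [ha]
        exact hxa b hb
      · rw [Set.mem_singleton_iff] at ha hb
        rw [ha, hb]
    have hBc : ∀ a ∈ B, ∀ b ∈ B, a * b = b * a := by
      intro a ha b hb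
      rw [hB] at ha hb
      have h1 : Subgroup.closure ((A : Set L) ∪ {x}) ≤
          Subgroup.centralizer ((Subgroup.closure ((A : Set L) ∪ {x}) : Subgroup L) : Set L) := by
        rw [Subgroup.centralizer_closure, Subgroup.closure_le]
        intro u hu
        rw [SetLike.mem_coe, Subgroup.mem_centralizer_iff]
        intro v hv
        exact hcomm v hv u hu
      exact ((Subgroup.mem_centralizer_iff.1 (h1 ha)) b hb).symm
    have hBi : (Subgroup.centralizer (B : Set L) : Set L).Infinite := by
      refine Set.Infinite.mono ?_ hinf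
      rintro y ⟨hy1, hy2⟩
      rw [SetLike.mem_coe, hB, Subgroup.centralizer_closure, Subgroup.mem_centralizer_iff]
      rintro u (hu | hu)
      · exact (Subgroup.mem_centralizer_iff.1 hy1) u hu
      · rw [Set.mem_singleton_iff] at hu
        rw [hu]
        exact hy2.symm
    refine ⟨⟨B, h B hBfg, hBc, hBi⟩, lt_of_le_of_ne hAB ?_⟩
    rintro he
    change A = B at he
    exact hxA (by rw [he]; exact hxB)
  choose nx hnx using step
  have hbot : GoodA (⊥ : Subgroup L) := by
    refine ⟨inferInstance, ?_, ?_⟩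
    · intro a ha b hb
      rw [Subgroup.mem_bot] at ha hb
      rw [ha, hb]
    · have : (Subgroup.centralizer ((⊥ : Subgroup L) : Set L) : Set L) = Set.univ := by
        ext y
        simp only [Set.mem_univ, iff_true, SetLike.mem_coe]
        rw [Subgroup.mem_centralizer_iff]
        intro u hu
        rw [SetLike.mem_coe, Subgroup.mem_bot] at hu
        rw [hu, one_mul, mul_one]
      rw [this]
      exact Set.infinite_univ
  obtain ⟨A, hA0⟩ : ∃ A : ℕ → {A : Subgroup L // GoodA A},
      A = fun n => Nat.rec (⟨⊥, hbot⟩ : {A : Subgroup L // GoodA A}) (fun _ B => nx B) n := ⟨_, rfl⟩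
  have hAs : ∀ n, (A n).1 < (A (n + 1)).1 := by
    intro n
    have e : A (n + 1) = nx (A n) := by rw [hA0]
    rw [e]
    exact hnx (A n)
  have hsm : StrictMono fun n => (A n).1 := strictMono_nat_of_lt_succ hAs
  have hdir : Directed (· ≤ ·) fun n => (A n).1 := hsm.monotone.directed_le
  apply hno
  refine ⟨⨆ n, (A n).1, ?_, ?_⟩
  · by_contra hfin
    rw [not_infinite_iff_finite] at hfin
    have hU : ((⨆ n, (A n).1 : Subgroup L) : Set L).Finite := hfin
    have hfs := hU.finite_subsets
    have : Finite {K : Set L | K ⊆ ((⨆ n, (A n).1 : Subgroup L) : Set L)} := hfs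
    have hinj : Function.Injective (fun n : ℕ => (⟨((A n).1 : Set L), le_iSup (fun n => (A n).1) n⟩ :
        {K : Set L | K ⊆ ((⨆ n, (A n).1 : Subgroup L) : Set L)})) := by
      intro a b hab
      have := congrArg Subtype.val hab
      exact hsm.injective (SetLike.coe_injective this)
    exact not_injective_infinite_finite _ hinj
  · intro a ha b hb
    rw [Subgroup.mem_iSup_of_directed hdir] at ha hb
    obtain ⟨i, hi⟩ := ha
    obtain ⟨j, hj⟩ := hb
    have h1 := hsm.monotone (le_max_left i j) hi
    have h2 := hsm.monotone (le_max_right i j) hj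
    exact (A (max i j)).2.2.1 a h1 b h2

/-- **Hall, Kulatilaka and Kargapolov, locally finite-soluble case.**  An infinite group all of whose
finitely generated subgroups are finite and soluble has an infinite commutative subgroup. -/
theorem hkk (L : Type*) [Group L] [Infinite L]
    (h : ∀ H : Subgroup L, H.FG → Finite H ∧ Group.IsSolvable H) :
    ∃ A : Subgroup L, Infinite A ∧ ∀ a ∈ A, ∀ b ∈ A, a * b = b * a := by
  classical
  by_contra hno
  obtain ⟨A, ⟨hAf, hAc, hAi⟩, hmax⟩ := exists_max_good (fun H hH => (h H hH).1) hno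
  obtain ⟨H, hH⟩ : ∃ H : Subgroup L, H = Subgroup.centralizer (A : Set L) := ⟨_, rfl⟩
  rw [← hH] at hAi hmax
  have hHi : Infinite H := hAi.to_subtype
  obtain ⟨A', hA'⟩ : ∃ A' : Subgroup H, A' = A.subgroupOf H := ⟨_, rfl⟩
  have hmem : ∀ y : H, y ∈ A' ↔ (y : L) ∈ A := by
    intro y
    rw [hA', Subgroup.mem_subgroupOf]
  have hcen : ∀ y : H, ∀ a ∈ A', y * a = a * y := by
    intro y a ha
    apply Subtype.ext
    have h1 : (y : L) ∈ Subgroup.centralizer (A : Set L) := by
      rw [← hH]
      exact y.2
    exact ((Subgroup.mem_centralizer_iff.1 h1) a ((hmem a).1 ha)).symm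
  have hN : A'.Normal := by
    refine ⟨fun a ha y => ?_⟩
    rw [hcen y a ha, mul_assoc, mul_inv_cancel, mul_one]
    exact ha
  have hA'f : Finite A' := by
    have hinj : Function.Injective (fun a : A' => (⟨((a : H) : L), (hmem a.1).1 a.2⟩ : A)) := by
      intro a b hab
      have := congrArg Subtype.val hab
      exact Subtype.ext (Subtype.ext this)
    exact Finite.of_injective _ hinj
  have hQi : Infinite (H ⧸ A') := by
    by_contra hf
    rw [not_infinite_iff_finite] at hf
    have hcard := Subgroup.card_eq_card_quotient_mul_card_subgroup A'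
    have h1 : Nat.card (H ⧸ A') ≠ 0 := Nat.card_pos.ne'
    have h2 : Nat.card A' ≠ 0 := Nat.card_pos.ne'
    have h3 : Nat.card H ≠ 0 := by
      rw [hcard]
      exact Nat.mul_ne_zero h1 h2
    have h4 : Finite H := Nat.finite_of_card_ne_zero h3
    exact not_finite_iff_infinite.2 hHi h4
  refine core (G := H ⧸ A') ?_ ?_
  · intro K hK
    rw [Subgroup.fg_iff] at hK
    obtain ⟨S, hS, hSf⟩ := hK
    choose lift hlift using (QuotientGroup.mk_surjective (s := A'))
    obtain ⟨T, hT⟩ : ∃ T : Set H, T = lift '' S := ⟨_, rfl⟩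
    have hTf : T.Finite := by
      rw [hT]
      exact hSf.image lift
    obtain ⟨K', hK'⟩ : ∃ K' : Subgroup H, K' = Subgroup.closure T := ⟨_, rfl⟩
    have hmap : K'.map (QuotientGroup.mk' A') = K := by
      rw [hK', MonoidHom.map_closure, ← hS, hT, Set.image_image]
      congr 1
      ext q
      constructor
      · rintro ⟨s, hs, rfl⟩
        have : (QuotientGroup.mk' A') (lift s) = s := hlift s
        change (QuotientGroup.mk' A') (lift s) ∈ S
        rw [this]
        exact hs
      · intro hq
        exact ⟨q, hq, hlift q⟩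
    have hfg : (K'.map H.subtype).FG := by
      rw [Subgroup.fg_iff]
      refine ⟨H.subtype '' T, ?_, hTf.image _⟩
      rw [hK', MonoidHom.map_closure]
    obtain ⟨hf1, hf2⟩ := h _ hfg
    have e : K' ≃* K'.map H.subtype :=
      K'.equivMapOfInjective H.subtype (Subgroup.subtype_injective H)
    have : Finite K' := Finite.of_equiv _ e.toEquiv.symm
    have : Group.IsSolvable K' :=
      Group.isSolvable_of_isSolvable_injective (f := e.toMonoidHom) e.injective
    rw [← hmap]
    have hsurj : Function.Surjective ((QuotientGroup.mk' A').subgroupMap K') :=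
      MonoidHom.subgroupMap_surjective _ _
    exact ⟨Finite.of_surjective _ hsurj, Group.isSolvable_of_surjective hsurj⟩
  · intro q hq
    obtain ⟨x, rfl⟩ := QuotientGroup.mk_surjective q
    have hxA' : x ∉ A' := fun hx => hq ((QuotientGroup.eq_one_iff x).2 hx)
    have hxA : (x : L) ∉ A := fun hx => hxA' ((hmem x).2 hx)
    have hC := hmax x x.2 hxA
    have hCx : {y : H | y * x = x * y}.Finite := by
      have h1 : {y : H | y * x = x * y} ⊆
          (Subtype.val : H → L) ⁻¹' {y | y ∈ H ∧ y * x = x * y} := by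
        intro y hy
        exact ⟨y.2, congrArg Subtype.val hy⟩
      exact Set.Finite.subset (hC.preimage (Subtype.val_injective.injOn)) h1
    have hD : ∀ a : A', {y : H | y * x = x * y * a}.Finite := by
      intro a
      rcases Set.eq_empty_or_nonempty {y : H | y * x = x * y * a} with he | ⟨y0, hy0⟩
      · rw [he]
        exact Set.finite_empty
      · refine Set.Finite.subset (hCx.image (fun y => y0 * y)) ?_
        intro y hy
        refine ⟨y0⁻¹ * y, ?_, by group⟩
        rw [Set.mem_ofPred_eq] at hy hy0 ⊢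
        have h1 : x⁻¹ * y * x = y * a := by
          rw [mul_assoc, hy]; group
        have h0 : x⁻¹ * y0 * x = y0 * a := by
          rw [mul_assoc, hy0]; group
        have h2 : x⁻¹ * (y0⁻¹ * y) * x = y0⁻¹ * y := by
          have h3 : x⁻¹ * (y0⁻¹ * y) * x = (x⁻¹ * y0 * x)⁻¹ * (x⁻¹ * y * x) := by group
          rw [h3, h0, h1, mul_inv_rev]
          have h4 : (y0⁻¹ * y) * (a : H) = a * (y0⁻¹ * y) := hcen _ _ a.2
          calc (a : H)⁻¹ * y0⁻¹ * (y * a) = (a : H)⁻¹ * ((y0⁻¹ * y) * a) := by group
            _ = (a : H)⁻¹ * (a * (y0⁻¹ * y)) := by rw [h4]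
            _ = y0⁻¹ * y := by group
        calc y0⁻¹ * y * x = x * (x⁻¹ * (y0⁻¹ * y) * x) := by group
          _ = x * (y0⁻¹ * y) := by rw [h2]
    change {y : H ⧸ A' | y * (x : H ⧸ A') = (x : H ⧸ A') * y}.Finite
    refine Set.Finite.subset ((Set.finite_iUnion hD).image (fun y : H => (y : H ⧸ A'))) ?_
    intro p hp
    obtain ⟨y, rfl⟩ := QuotientGroup.mk_surjective p
    rw [Set.mem_ofPred_eq, ← QuotientGroup.mk_mul, ← QuotientGroup.mk_mul, eq_comm,
      QuotientGroup.eq] at hp
    refine ⟨y, ?_, rfl⟩
    rw [Set.mem_iUnion]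
    refine ⟨⟨_, hp⟩, ?_⟩
    rw [Set.mem_ofPred_eq]
    group

end Pool.Agent.CIP.H59
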